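import Pool.Agent.T9h94.CZ.Spec

/-! PIECE `STriv` of `T9h94/CZ/Spec.lean` (markings close to a given one, trivial on the characters
with values in `ZMod N`). -/

set_option autoImplicit false

namespace Pool.Agent.T9h89.CZ

open Pool.Agent.T9h94.CZ

section rho

variable (A C : Type) [CommGroup A] [CommGroup C]

/-- action of the automorphisms on the characters. -/
def rho : MulAut A →* Equiv.Perm (A →* C) where
  toFun g :=
    { toFun := fun χ => χ.comp (MulEquiv.toMonoidHom (g⁻¹ : MulAut A))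
      invFun := fun χ => χ.comp (MulEquiv.toMonoidHom g)
      left_inv := by intro χ; ext x; simp
      right_inv := by intro χ; ext x; simp }
  map_one' := by ext χ x; simp
  map_mul' := by intro g h; ext χ x; simp [mul_inv_rev]

theorem rho_apply (g : MulAut A) (χ : A →* C) (x : A) : rho A C g χ x = χ (g⁻¹ x) := rfl

theorem of_rho_one (g : MulAut A) (h : rho A C g = 1) (χ : A →* C) (x : A) : χ (g x) = χ x := by
  have h1 := rho_apply A C g χ (g x)
  rw [h] at h1
  simpa using h1

end rho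

section main

variable {α M : Type} [Group M]

/-- substitution. -/
theorem lift_comp (Z : α → M) (V : α → FreeGroup α) (w : FreeGroup α) :
    FreeGroup.lift (fun j => FreeGroup.lift Z (V j)) w = FreeGroup.lift Z (FreeGroup.lift V w) := by
  have h : FreeGroup.lift (fun j => FreeGroup.lift Z (V j)) =
      (FreeGroup.lift Z).comp (FreeGroup.lift V) := by
    ext j
    simp
  rw [h]
  rfl

/-- realised permutations of the characters. -/
def Real (Z : α → M) (C : Type) [CommGroup C] (τ : Equiv.Perm (Abelianization M →* C)) : Prop :=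
  ∀ B : Set (FreeGroup α), B.Finite → ∃ (Z' : α → M) (g : MulAut (Abelianization M)),
    Gen Z' ∧ Close B Z Z' ∧ Differ Z Z' ∧ Match Z Z' g ∧ rho (Abelianization M) C g = τ

theorem close_mono {B B' : Set (FreeGroup α)} (h : B ⊆ B') {Z Z' : α → M} (h' : Close B' Z Z') :
    Close B Z Z' := fun w hw => h' w (h hw)

theorem real_mul [Finite α] (Z : α → M) (hZ : Gen Z) (C : Type) [CommGroup C]
    (τ' τ'' : Equiv.Perm (Abelianization M →* C)) (h' : Real Z C τ') (h'' : Real Z C τ'') :
    Real Z C (τ'' * τ') := by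
  intro B hB
  obtain ⟨Z', g', hG', hC', ⟨w₁, hD'⟩, hM', hr'⟩ := h' B hB
  have hV : ∀ j, ∃ v : FreeGroup α, FreeGroup.lift Z v = Z' j := fun j => hZ (Z' j)
  choose V hV using hV
  have hU : ∀ j, ∃ u : FreeGroup α, FreeGroup.lift Z' u = Z j := fun j => hG' (Z j)
  choose U hU using hU
  have hZV : ∀ w, FreeGroup.lift Z' w = FreeGroup.lift Z (FreeGroup.lift V w) := by
    intro w
    rw [← lift_comp]
    congr 2
    funext j
    exact (hV j).symm
  let B'' : Set (FreeGroup α) := (FreeGroup.lift V '' B) ∪ {FreeGroup.lift V w₁} ∪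
    Set.range (fun j => (FreeGroup.of j)⁻¹ * FreeGroup.lift V (U j))
  have hB'' : B''.Finite := ((hB.image _).union (Set.finite_singleton _)).union (Set.finite_range _)
  obtain ⟨Z'', g'', hG'', hC'', -, hM'', hr''⟩ := h'' B'' hB''
  let Z3 : α → M := fun j => FreeGroup.lift Z'' (V j)
  have hZ3 : ∀ w, FreeGroup.lift Z3 w = FreeGroup.lift Z'' (FreeGroup.lift V w) := fun w =>
    lift_comp Z'' V w
  refine ⟨Z3, g'' * g', ?_, ?_, ⟨w₁, ?_⟩, ?_, ?_⟩
  · -- generation
    have hj : ∀ j, Z'' j = FreeGroup.lift Z3 (U j) := by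
      intro j
      have h1 : (FreeGroup.of j)⁻¹ * FreeGroup.lift V (U j) ∈ B'' := Or.inr ⟨j, rfl⟩
      have h2 : FreeGroup.lift Z ((FreeGroup.of j)⁻¹ * FreeGroup.lift V (U j)) = 1 := by
        rw [map_mul, map_inv, ← hZV, hU]
        simp
      have h3 := (hC'' _ h1).2 h2
      rw [map_mul, map_inv, ← hZ3, inv_mul_eq_one] at h3
      simpa using h3
    intro x
    obtain ⟨w, rfl⟩ := hG'' x
    refine ⟨FreeGroup.lift U w, ?_⟩
    rw [← lift_comp]
    congr 2
    funext j
    exact (hj j).symm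
  · intro w hw
    rw [hZ3, hC'' _ (Or.inl (Or.inl ⟨w, hw, rfl⟩)), ← hZV]
    exact hC' w hw
  · intro h
    apply hD'
    rw [hZV, ← hC'' _ (Or.inl (Or.inr rfl)), ← hZ3]
    exact h
  · intro w
    have h1 : (g'' * g') (Abelianization.of (FreeGroup.lift Z w)) =
        g'' (g' (Abelianization.of (FreeGroup.lift Z w))) := rfl
    refine h1.trans ?_
    rw [hM' w, hZV, hM'', hZ3]
  · rw [map_mul, hr', hr'']

theorem real_pow [Finite α] (Z : α → M) (hZ : Gen Z) (C : Type) [CommGroup C]
    (τ : Equiv.Perm (Abelianization M →* C)) (h : Real Z C τ) (k : ℕ) : Real Z C (τ ^ (k + 1)) := by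
  induction k with
  | zero => simpa using h
  | succ k ih =>
    rw [pow_succ']
    exact real_mul Z hZ C _ _ ih h

theorem finite_chars [Finite α] (Z : α → M) (hZ : Gen Z) (C : Type) [CommGroup C] [Finite C] :
    Finite (Abelianization M →* C) := by
  refine Finite.of_injective (fun χ : Abelianization M →* C => fun j : α =>
    χ (Abelianization.of (Z j))) ?_
  intro χ χ' h
  have h1 : (χ.comp Abelianization.of).comp (FreeGroup.lift Z) =
      (χ'.comp Abelianization.of).comp (FreeGroup.lift Z) := by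
    ext j
    simpa using congrFun h j
  refine Abelianization.hom_ext _ _ ?_
  ext x
  obtain ⟨w, rfl⟩ := hZ x
  exact DFunLike.congr_fun h1 w

theorem real_ex [Finite α] (Z : α → M) (hZ : Gen Z) (hA : Acc Z) (C : Type) [CommGroup C]
    [Finite C] (B₀ : Set (FreeGroup α)) (hB₀ : B₀.Finite)
    (hM : ∀ Z' : α → M, Gen Z' → Close B₀ Z Z' →
      ∃ g : Abelianization M ≃* Abelianization M, Match Z Z' g) :
    ∃ τ, Real Z C τ := by
  by_contra hno
  push Not at hno
  have hbad : ∀ τ : Equiv.Perm (Abelianization M →* C), ∃ B : Set (FreeGroup α), B.Finite ∧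
      ¬ ∃ (Z' : α → M) (g : MulAut (Abelianization M)),
        Gen Z' ∧ Close B Z Z' ∧ Differ Z Z' ∧ Match Z Z' g ∧ rho (Abelianization M) C g = τ := by
    intro τ
    have := hno τ
    unfold Real at this
    push Not at this
    obtain ⟨B, hB, h⟩ := this
    refine ⟨B, hB, ?_⟩
    rintro ⟨Z', g, h1, h2, h3, h4, h5⟩
    exact h Z' g h1 h2 h3 h4 h5
  choose B hB hno' using hbad
  have := finite_chars Z hZ C
  have : Finite (Equiv.Perm (Abelianization M →* C)) := inferInstance
  obtain ⟨Z', hG, hC, hD⟩ := hA (B₀ ∪ ⋃ τ, B τ) (hB₀.union (Set.finite_iUnion hB))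
  obtain ⟨g, hg⟩ := hM Z' hG (close_mono Set.subset_union_left hC)
  exact hno' (rho (Abelianization M) C g) ⟨Z', g, hG,
    close_mono (fun w hw => Or.inr (Set.mem_iUnion.2 ⟨_, hw⟩)) hC, hD, hg, rfl⟩

end main

theorem sTriv : SMatch → STriv := by
  intro hM α M _ _ Z hZ hA N hN B hB
  have : NeZero N := ⟨by omega⟩
  obtain ⟨B₀, hB₀, hg⟩ := hM α M Z hZ
  obtain ⟨τ, hτ⟩ := real_ex Z hZ hA (Multiplicative (ZMod N)) B₀ hB₀ hg
  have := finite_chars Z hZ (Multiplicative (ZMod N))
  have h1 : Real Z (Multiplicative (ZMod N)) 1 := by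
    have h2 := real_pow Z hZ _ τ hτ (orderOf τ - 1)
    have h3 : orderOf τ - 1 + 1 = orderOf τ := Nat.sub_add_cancel (orderOf_pos τ)
    rwa [h3, pow_orderOf_eq_one] at h2
  obtain ⟨Z', g, hG, hC, hD, hMt, hr⟩ := h1 B hB
  exact ⟨Z', g, hG, hC, hD, hMt, fun χ x => of_rho_one _ _ g hr χ x⟩

end Pool.Agent.T9h89.CZ
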