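import Pool.Agent.T9h94.CZ.Spec4

/-! PIECE (B1) of `T9h94/CZ/Spec4.lean`: chain condition for centralisers (after `wf_rel` of
`T9h71/CZ/Centreless.lean`). -/

set_option autoImplicit false

namespace Pool.Agent.T9h89.CZ

open Pool.Agent.T9h94.CZ

theorem centr3 {L : Type} [Group L] (E : Set L) :
    Subgroup.centralizer (Subgroup.centralizer (Subgroup.centralizer E : Set L) : Set L) =
      Subgroup.centralizer E := by
  apply le_antisymm
  · intro x hx
    rw [Subgroup.mem_centralizer_iff] at hx ⊢
    intro y hy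
    refine hx y ?_
    change y ∈ Subgroup.centralizer _
    rw [Subgroup.mem_centralizer_iff]
    intro z hz
    exact ((Subgroup.mem_centralizer_iff.mp hz) y hy).symm
  · intro x hx
    rw [Subgroup.mem_centralizer_iff]
    intro y hy
    exact ((Subgroup.mem_centralizer_iff.mp hy) x hx).symm

theorem sDCC : SDCC := by
  intro L _ hfg hEq E₀ hE₀
  obtain ⟨n, φ, hφ⟩ : ∃ (n : ℕ) (Y : Fin n → L), Function.Surjective (FreeGroup.lift Y) := by
    obtain ⟨α, hα, φ, hφ⟩ := Group.fg_iff_exists_freeGroup_hom_surjective_finite.1 hfg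
    obtain ⟨n, ⟨e⟩⟩ := Finite.exists_equiv_fin α
    refine ⟨n, fun i => φ (FreeGroup.of (e.symm i)), ?_⟩
    have h1 : (FreeGroup.lift (fun i => φ (FreeGroup.of (e.symm i)))).comp (FreeGroup.map e) =
        φ := by
      ext i
      simp
    intro x
    obtain ⟨w, hw⟩ := hφ x
    exact ⟨FreeGroup.map e w, (DFunLike.congr_fun h1 w).trans hw⟩
  rename' φ => Y, hφ => hY
  choose w hw using hY
  let E : ℕ → Set L := fun k =>
    (Subgroup.centralizer (Subgroup.centralizer (E₀ k) : Set L) : Set L)
  have hEs : ∀ k, Subgroup.centralizer (E₀ k) = Subgroup.centralizer (E k) := fun k =>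
    (centr3 (E₀ k)).symm
  have hmono : Monotone E := by
    refine monotone_nat_of_le_succ ?_
    intro k x hx
    change x ∈ Subgroup.centralizer _
    rw [Subgroup.mem_centralizer_iff]
    intro y hy
    exact (Subgroup.mem_centralizer_iff.mp hx) y (hE₀ k hy)
  let c : L → FreeGroup (Option (Fin n)) := fun e =>
    (FreeGroup.of none : FreeGroup (Option (Fin n))) * FreeGroup.map some (w e) *
      (FreeGroup.of none)⁻¹ * (FreeGroup.map some (w e))⁻¹
  have hc : ∀ (x e : L), FreeGroup.lift (fun o : Option (Fin n) => o.elim x Y) (c e) =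
      x * e * x⁻¹ * e⁻¹ := by
    intro x e
    have h1 : (FreeGroup.lift (fun o : Option (Fin n) => o.elim x Y)).comp (FreeGroup.map some) =
        FreeGroup.lift Y := by
      ext i
      simp
    have h2 : FreeGroup.lift (fun o : Option (Fin n) => o.elim x Y) (FreeGroup.map some (w e)) =
        e := by
      have h3 := DFunLike.congr_fun h1 (w e)
      rw [hw] at h3
      exact h3
    simp only [c, map_mul, map_inv, h2]
    simp
  obtain ⟨T, hT, hTS, hTe⟩ := hEq (Option (Fin n)) (⋃ k, c '' E k)
  obtain ⟨k, hk⟩ : ∃ k, T ⊆ c '' E k := by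
    have hm : Monotone fun k => c '' E k := fun a b hab => Set.image_mono (hmono hab)
    choose κ hκ using fun v : T => Set.mem_iUnion.mp (hTS v.2)
    have hfT : Finite T := hT.to_subtype
    obtain ⟨K, hK⟩ := (Set.finite_range κ).bddAbove
    exact ⟨K, fun v hv => hm (hK ⟨⟨v, hv⟩, rfl⟩) (hκ ⟨v, hv⟩)⟩
  refine ⟨k, fun m hkm => le_antisymm ?_ ?_⟩
  · rw [hEs m, hEs k]
    intro x hx
    rw [Subgroup.mem_centralizer_iff] at hx ⊢
    intro y hy
    exact hx y (hmono hkm hy)
  · rw [hEs m, hEs k]
    intro x hx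
    rw [Subgroup.mem_centralizer_iff] at hx ⊢
    intro e he
    have h1 : FreeGroup.lift (fun o : Option (Fin n) => o.elim x Y) (c e) = 1 := by
      refine hTe _ ?_ (c e) (Set.mem_iUnion.mpr ⟨m, e, he, rfl⟩)
      intro v hv
      obtain ⟨e', he', rfl⟩ := hk hv
      rw [hc, ← hx e' he']
      group
    rw [hc] at h1
    have h3 : x * e * x⁻¹ = e := by
      have h4 := mul_eq_one_iff_eq_inv.mp h1
      rwa [inv_inv] at h4
    calc e * x = (x * e * x⁻¹) * x := by rw [h3]
      _ = x * e := by group

end Pool.Agent.T9h89.CZ
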