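import Pool.Agent.T9h94.CZ.Spec4

/-! PIECE (B2) of `T9h94/CZ/Spec4.lean`: `Bset L` is closed under intersections. -/

set_option autoImplicit false

namespace Pool.Agent.T9h89.CZ

open Pool.Agent.T9h94.CZ
open scoped commutatorElement

variable {L : Type} [Group L]

theorem idem_symm {f h : L →* L} (H : Idem f h) : Idem h f :=
  ⟨fun x => by rw [← H.2 x x]; exact H.1 x, fun x y => (H.2 y x).symm⟩

theorem mem_center_iff_comm (x : L) : x ∈ Subgroup.center L ↔ ∀ y : L, ⁅x, y⁆ = 1 := by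
  rw [Subgroup.mem_center_iff]
  refine forall_congr' fun y => ?_
  rw [commutatorElement_eq_one_iff_mul_comm]
  exact eq_comm

/-- the first factor of an `Idem` in the first argument of a commutator -/
theorem comm_left {f h : L →* L} (H : Idem f h) (x y : L) : ⁅f x, y⁆ = f ⁅x, y⁆ := by
  have h1 : ⁅f x, y⁆ = ⁅f x, f y * h y⁆ := by rw [H.1 y]
  have h2 : ⁅f x, f y * h y⁆ = ⁅f x, f y⁆ := by
    rw [commutatorElement_def, commutatorElement_def]
    have e : f y * h y * (f x)⁻¹ = f y * (f x)⁻¹ * h y := by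
      have := H.2 x⁻¹ y
      rw [map_inv] at this
      rw [mul_assoc, mul_assoc, this]
    calc f x * (f y * h y) * (f x)⁻¹ * (f y * h y)⁻¹
        = f x * (f y * h y * (f x)⁻¹) * (f y * h y)⁻¹ := by group
      _ = f x * (f y * (f x)⁻¹ * h y) * (f y * h y)⁻¹ := by rw [e]
      _ = f x * f y * (f x)⁻¹ * (f y)⁻¹ := by group
  rw [h1, h2, map_commutatorElement]

theorem comm_right {f h : L →* L} (H : Idem f h) (x y : L) : ⁅x, f y⁆ = f ⁅x, y⁆ := by
  rw [← commutatorElement_inv (f y) x, comm_left H, ← map_inv, commutatorElement_inv]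

theorem center_map {f h : L →* L} (H : Idem f h) {x : L} (hx : x ∈ Subgroup.center L) :
    f x ∈ Subgroup.center L := by
  rw [mem_center_iff_comm] at hx ⊢
  intro y
  rw [comm_left H, hx y, map_one]

theorem center_fh {f h : L →* L} (H : Idem f h) (x : L) : f (h x) ∈ Subgroup.center L := by
  rw [mem_center_iff_comm]
  intro y
  rw [comm_left H, ← comm_right H, commutatorElement_eq_one_iff_mul_comm]
  exact (H.2 y x).symm

/-- two first factors commute modulo the centre -/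
theorem comm_comp {f h f₂ h₂ : L →* L} (H : Idem f h) (H₂ : Idem f₂ h₂) (x y : L) :
    ⁅f (f₂ x), y⁆ = ⁅f₂ (f x), y⁆ := by
  rw [comm_left H, ← comm_right H, comm_left H₂, comm_right H, ← comm_left H, ← comm_left H₂]

theorem center_comp {f h f₂ h₂ : L →* L} (H : Idem f h) (H₂ : Idem f₂ h₂) (x : L)
    (hx : f (f₂ x) ∈ Subgroup.center L) : f₂ (f x) ∈ Subgroup.center L := by
  rw [mem_center_iff_comm] at hx ⊢
  intro y
  rw [← comm_comp H H₂]
  exact hx y

/-- the second factor of the intersection -/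
def hh {f₁ h₁ : L →* L} (H : Idem f₁ h₁) (h₂ : L →* L) : L →* L where
  toFun x := f₁ (h₂ x) * h₁ x
  map_one' := by simp
  map_mul' x y := by
    simp only [map_mul]
    have := H.2 (h₂ y) x
    calc f₁ (h₂ x) * f₁ (h₂ y) * (h₁ x * h₁ y) = f₁ (h₂ x) * (f₁ (h₂ y) * h₁ x) * h₁ y := by group
      _ = f₁ (h₂ x) * (h₁ x * f₁ (h₂ y)) * h₁ y := by rw [this]
      _ = f₁ (h₂ x) * h₁ x * (f₁ (h₂ y) * h₁ y) := by group

theorem idem_inter {f₁ h₁ f₂ h₂ : L →* L} (H₁ : Idem f₁ h₁) (H₂ : Idem f₂ h₂) :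
    Idem (f₁.comp f₂) (hh H₁ h₂) := by
  constructor
  · intro x
    change f₁ (f₂ x) * (f₁ (h₂ x) * h₁ x) = x
    rw [← mul_assoc, ← map_mul, H₂.1, H₁.1]
  · intro x y
    change f₁ (f₂ x) * (f₁ (h₂ y) * h₁ y) = f₁ (h₂ y) * h₁ y * f₁ (f₂ x)
    have e1 : f₁ (f₂ x) * f₁ (h₂ y) = f₁ (h₂ y) * f₁ (f₂ x) := by
      rw [← map_mul, H₂.2, map_mul]
    have e2 := H₁.2 (f₂ x) y
    rw [← mul_assoc, e1, mul_assoc, e2, mul_assoc]

theorem sInter : SInter := by
  rintro L _ U W ⟨f₁, h₁, H₁, rfl⟩ ⟨f₂, h₂, H₂, rfl⟩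
  refine ⟨f₁.comp f₂, hh H₁ h₂, idem_inter H₁ H₂, ?_⟩
  ext x
  rw [Subgroup.mem_inf, Subgroup.mem_comap, Subgroup.mem_comap, Subgroup.mem_comap]
  change f₁ (h₂ x) * h₁ x ∈ _ ↔ _
  constructor
  · intro hx
    have c1 : h₁ (f₁ (h₂ x)) * h₁ (h₁ x) ∈ Subgroup.center L := by
      rw [← map_mul]
      exact center_map (idem_symm H₁) hx
    have c2 : h₁ (h₁ x) ∈ Subgroup.center L :=
      (Subgroup.mul_mem_cancel_left _ (center_fh (idem_symm H₁) (h₂ x))).1 c1
    have c3 : h₁ x ∈ Subgroup.center L := by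
      have := Subgroup.mul_mem _ (center_fh H₁ x) c2
      rwa [H₁.1] at this
    have c4 : f₁ (h₂ x) ∈ Subgroup.center L := (Subgroup.mul_mem_cancel_right _ c3).1 hx
    have c5 : h₁ (h₂ x) ∈ Subgroup.center L :=
      center_comp (idem_symm H₂) (idem_symm H₁) x (center_map (idem_symm H₂) c3)
    refine ⟨c3, ?_⟩
    have := Subgroup.mul_mem _ c4 c5
    rwa [H₁.1] at this
  · rintro ⟨c1, c2⟩
    exact Subgroup.mul_mem _ (center_map H₁ c2) c1

end Pool.Agent.T9h89.CZ
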